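import Pool.Agent.V11193.FJ.Rel

/-!
# Good factors: graph products and realized conjugations
-/

set_option autoImplicit false

namespace Pool.Agent.V11193.FJ

open Pool.Agent.Y110.FJ
open Pool.Agent.Y462.SS (Closed)
open Pool.Agent.H65FJ

variable {C : ∀ (G : Type) [Group G], Prop}

theorem gp_one (hC : ClosedE C) (G : Type) [Group G] (N : Subgroup G) [N.Normal]
    (V : Type) (Λ : SimpleGraph V) (A : V → Subgroup G) (hN : IntGP Λ A N)
    (hA : ∀ v, C (A v)) : C N ∧ ∀ γ : G, (∀ k : ℕ, 0 < k → γ ^ k ∉ N) → GoodPerm C Λ A γ →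
      C ↥(N ⊔ Subgroup.zpowers γ) := by
  let P : Type := GrP Λ (fun v => ↥(A v))
  obtain ⟨e, he⟩ := exists_lift (Λ := Λ) (A := fun v => ↥(A v)) (H := G) (fun v => (A v).subtype)
    (fun v w hvw a b => hN.comm v w hvw a a.2 b b.2)
  have he' : ∀ v (a : A v), e (GrP.of Λ (fun v => ↥(A v)) v a) = a := he
  obtain ⟨d, hd⟩ := hN.univ P (fun v => GrP.of Λ (fun v => ↥(A v)) v)
    (fun v w hvw a b => of_comm (A := fun v => ↥(A v)) hvw a b)
  have heN : ∀ x, e x ∈ N := by
    intro x
    refine grp_ind (P := fun x => e x ∈ N) ?_ ?_ ?_ x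
    · rw [map_one]; exact one_mem _
    · intro x y hx hy; rw [map_mul]; exact mul_mem hx hy
    · intro v a; rw [he']; exact hN.le v a.2
  let e1 : P →* N := e.codRestrict N heN
  have hde : ∀ x, d (e1 x) = x := by
    have h1 : d.comp e1 = MonoidHom.id P := by
      apply grp_ext
      intro v a
      show d (e1 (GrP.of Λ (fun v => ↥(A v)) v a)) = _
      have h2 : e1 (GrP.of Λ (fun v => ↥(A v)) v a) = ⟨a, hN.le v a.2⟩ := Subtype.ext (he' v a)
      rw [h2, hd]
      rfl
    exact fun x => DFunLike.congr_fun h1 x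
  have he1i : Function.Injective e1 := fun x y hxy => by rw [← hde x, hxy, hde]
  have hei : Function.Injective e := fun x y hxy => he1i (Subtype.ext hxy)
  have hNr : N ≤ e.range := by
    refine hN.gen.trans ?_
    rw [Subgroup.closure_le]
    rintro x ⟨v, hx⟩
    exact ⟨GrP.of Λ (fun v => ↥(A v)) v ⟨x, hx⟩, he' v ⟨x, hx⟩⟩
  have he1s : Function.Surjective e1 := by
    rintro ⟨x, hx⟩
    obtain ⟨y, hy⟩ := hNr hx
    exact ⟨y, Subtype.ext hy⟩
  let E : P ≃* N := MulEquiv.ofBijective e1 ⟨he1i, he1s⟩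
  have hP : C P := grp_mem hC hA
  have hCN : C N := hC.base.of_injective _ _ E.symm.toMonoidHom E.symm.injective hP
  refine ⟨hCN, fun γ hγn hs => ?_⟩
  obtain ⟨s, hs1, hs2, hs3⟩ := hs
  have hγN : ∀ k : ℤ, γ ^ k ∈ N → k = 0 := by
    intro k hk
    rcases Int.eq_nat_or_neg k with ⟨m, rfl | rfl⟩
    · rcases Nat.eq_zero_or_pos m with rfl | hm
      · rfl
      · exact absurd (by simpa using hk) (hγn m hm)
    · rcases Nat.eq_zero_or_pos m with rfl | hm
      · rfl
      · exact absurd (by simpa using hk) (hγn m hm)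
  let σ : MulAut P := (E.trans (MulAut.conjNormal γ)).trans E.symm
  have hσe : ∀ x, e (σ x) = γ * e x * γ⁻¹ := by
    intro x
    have h1 : E (σ x) = MulAut.conjNormal γ (E x) := E.apply_symm_apply _
    exact congrArg Subtype.val h1
  have hsinv : ∀ v, ∀ a ∈ A v, γ⁻¹ * a * γ ∈ A (s⁻¹ v) := by
    intro v a ha
    have h1 := hs2 (s⁻¹ v)
    have h2 : s (s⁻¹ v) = v := s.apply_symm_apply v
    rw [h2] at h1
    rw [← h1] at ha
    obtain ⟨b, hb, hba⟩ := ha
    have h3 : γ * b * γ⁻¹ = a := hba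
    have h4 : γ⁻¹ * a * γ = b := by rw [← h3]; group
    rw [h4]
    exact hb
  have hsmem : ∀ v, ∀ a ∈ A v, γ * a * γ⁻¹ ∈ A (s v) := by
    intro v a ha
    rw [← hs2 v]
    exact ⟨a, ha, rfl⟩
  let D : Dat Λ (fun v => ↥(A v)) :=
    { σ := σ
      s := s
      hσ := fun v a => ⟨⟨γ * a * γ⁻¹, hsmem v a a.2⟩, by
        apply hei
        rw [hσe, he', he']⟩
      hσ' := fun v a => ⟨⟨γ⁻¹ * a * γ, hsinv v a a.2⟩, by
        apply hei
        have h1 := hσe (σ⁻¹ (GrP.of Λ (fun v => ↥(A v)) v a))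
        rw [MulAut.apply_inv_self, he'] at h1
        rw [he']
        show e (σ⁻¹ (GrP.of Λ (fun v => ↥(A v)) v a)) = γ⁻¹ * (a : G) * γ
        rw [h1]
        group⟩
      hΛ := hs1 }
  obtain ⟨Ψ, h1, h2⟩ := mt_lift σ e γ hσe
  have hinj : Function.Injective Ψ := by
    rw [injective_iff_map_eq_one]
    intro z hz
    have h3 : z = SemidirectProduct.inl z.left * (st σ) ^ (Multiplicative.toAdd z.right) := by
      rw [st_zpow]
      exact (SemidirectProduct.inl_left_mul_inr_right z).symm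
    rw [h3, map_mul, map_zpow, h1, h2] at hz
    have h4 : γ ^ (Multiplicative.toAdd z.right) ∈ N := by
      have : γ ^ (Multiplicative.toAdd z.right) = (e z.left)⁻¹ := by
        rw [eq_inv_iff_mul_eq_one, mul_eq_one_iff_eq_inv]
        rw [mul_eq_one_iff_eq_inv] at hz
        rw [hz, inv_inv]
      rw [this]
      exact inv_mem (heN _)
    have h5 := hγN _ h4
    rw [h5, zpow_zero, mul_one] at hz
    have h6 : z.left = 1 := hei (by rw [hz, map_one])
    rw [h3, h5, h6]
    simp
  have hle : N ⊔ Subgroup.zpowers γ ≤ Ψ.range := by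
    refine sup_le ?_ ?_
    · intro x hx
      obtain ⟨y, rfl⟩ := hNr hx
      exact ⟨SemidirectProduct.inl y, h1 y⟩
    · rw [Subgroup.zpowers_le]
      exact ⟨st σ, h2⟩
  refine hC.base.of_injective _ _ ((MonoidHom.ofInjective hinj).symm.toMonoidHom.comp
    (Subgroup.inclusion hle)) ((MonoidHom.ofInjective hinj).symm.injective.comp
      (Subgroup.inclusion_injective hle)) ?_
  refine D.torus hC ?_ ?_
  · intro v
    refine hC.base.of_injective _ (A v) ((e.comp (Subgroup.subtype _)).codRestrict (A v) ?_) ?_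
      (hA v)
    · rintro ⟨_, ⟨a, rfl⟩⟩
      show e (GrP.of Λ (fun v => ↥(A v)) v a) ∈ A v
      rw [he']
      exact a.2
    · intro x y hxy
      have h3 : e (x : P) = e (y : P) := congrArg (fun z : A v => (z : G)) hxy
      exact Subtype.ext (hei h3)
  · intro v c hc hcv
    have hmem : ∀ x ∈ Subgroup.closure
        ((SemidirectProduct.inl '' (Dat.Ag Λ (fun v => ↥(A v)) v : Set P)) ∪ {(st σ) ^ c} :
        Set (MT P σ)), Ψ x ∈ A v ⊔ Subgroup.zpowers (γ ^ c) := by
      have h3 : Subgroup.closure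
        ((SemidirectProduct.inl '' (Dat.Ag Λ (fun v => ↥(A v)) v : Set P)) ∪ {(st σ) ^ c} :
        Set (MT P σ)) ≤ (A v ⊔ Subgroup.zpowers (γ ^ c)).comap Ψ := by
        rw [Subgroup.closure_le]
        rintro x (⟨_, ⟨a, rfl⟩, rfl⟩ | hx)
        · show Ψ (SemidirectProduct.inl (GrP.of Λ (fun v => ↥(A v)) v a)) ∈
            A v ⊔ Subgroup.zpowers (γ ^ c)
          rw [h1, he']
          exact Subgroup.mem_sup_left a.2
        · rw [Set.mem_singleton_iff.1 hx]
          show Ψ ((st σ) ^ c) ∈ A v ⊔ Subgroup.zpowers (γ ^ c)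
          rw [map_pow, h2]
          exact Subgroup.mem_sup_right (Subgroup.mem_zpowers _)
      exact h3
    refine hC.base.of_injective _ _ ((Ψ.comp (Subgroup.subtype _)).codRestrict _
      (fun x => hmem x.1 x.2)) ?_ (hs3 v c hc hcv)
    intro x y hxy
    have h3 : Ψ x.1 = Ψ y.1 := congrArg Subtype.val hxy
    exact Subtype.ext (hinj h3)


theorem pow_coset {G : Type} [Group G] {N : Subgroup G} [N.Normal] {n g : G} (hn : n ∈ N)
    (hg : ∀ k : ℕ, 0 < k → g ^ k ∉ N) : ∀ k : ℕ, 0 < k → (n * g) ^ k ∉ N := by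
  intro k hk hk'
  apply hg k hk
  have h3 : ((QuotientGroup.mk' N) (n * g)) ^ k = 1 := by
    rw [← map_pow]; exact (QuotientGroup.eq_one_iff _).2 hk'
  have h4 : (QuotientGroup.mk' N) (n * g) = (QuotientGroup.mk' N) g := by
    rw [map_mul]
    have : (QuotientGroup.mk' N) n = 1 := (QuotientGroup.eq_one_iff _).2 hn
    rw [this, one_mul]
  rw [h4, ← map_pow] at h3
  exact (QuotientGroup.eq_one_iff _).1 h3

/-- The normal subgroup `N` of `H` is the graph product of subgroups `A v` in `C`, and every coset of `N`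
of infinite order has an element which permutes the `A v` as in `GoodPerm`. -/
def GP (C : ∀ (G : Type) [Group G], Prop) (H : Type) [Group H] (N : Subgroup H) : Prop :=
  ∃ (V : Type) (Λ : SimpleGraph V) (A : V → Subgroup H), IntGP Λ A N ∧ (∀ v, C (A v)) ∧
    ∀ g : H, (∀ k : ℕ, 0 < k → g ^ k ∉ N) → ∃ n ∈ N, GoodPerm C Λ A (n * g)

theorem good_gp (hC : ClosedE C) {H : Type} [Group H] (N : Subgroup H) [N.Normal] (h : GP C H N) :
    Good C N := by
  obtain ⟨V, Λ, A, hN, hA, hg⟩ := h
  obtain ⟨h1, h2⟩ := gp_one hC H N V Λ A hN hA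
  refine good_of_coset hC N h1 (fun g hg' => ?_)
  obtain ⟨n, hn, h3⟩ := hg g hg'
  exact ⟨n, hn, h2 _ (pow_coset hn hg') h3⟩

/-- Every coset of the normal subgroup `N` of `H` has an element whose conjugation action on each finite
subset of `N` is realized in a group in `C`. -/
def Real (C : ∀ (G : Type) [Group G], Prop) (H : Type) [Group H] (N : Subgroup H) : Prop :=
  ∀ g : H, ∃ n ∈ N, ∀ E : Set H, E.Finite → E ⊆ N → Realized C (n * g) E

theorem good_real (hC : ClosedE C) {H : Type} [Group H] (N : Subgroup H) [N.Normal]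
    (hE : Real C H N) : Good C N := by
  classical
  have hN : C N := by
    refine of_fg hC.base N ?_
    intro s
    obtain ⟨n, hn, h⟩ := hE 1
    obtain ⟨P, _, f, p, hCP, hf, _⟩ := h ((Subtype.val : N → H) '' (s : Set N))
      (s.finite_toSet.image _) (by rintro _ ⟨x, _, rfl⟩; exact x.2)
    have hle : (Subgroup.closure (s : Set N)).map N.subtype ≤
        Subgroup.closure (((Subtype.val : N → H) '' (s : Set N)) ∪
          (fun x => n * 1 * x * (n * 1)⁻¹) '' ((Subtype.val : N → H) '' (s : Set N))) := by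
      rw [MonoidHom.map_closure]
      exact Subgroup.closure_mono Set.subset_union_left
    let e : Subgroup.closure (s : Set N) →* P :=
      f.comp ((Subgroup.inclusion hle).comp
        ((Subgroup.equivMapOfInjective _ N.subtype N.subtype_injective).toMonoidHom))
    refine hC.base.of_injective _ P e ?_ hCP
    exact hf.comp ((Subgroup.inclusion_injective hle).comp
      (Subgroup.equivMapOfInjective _ N.subtype N.subtype_injective).injective)
  refine good_of_coset hC N hN (fun g hg => ?_)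
  obtain ⟨n, hn, h⟩ := hE g
  exact ⟨n, hn, t_col C hC H N (n * g) (pow_coset hn hg) h⟩

end Pool.Agent.V11193.FJ
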