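import Pool.Agent.H65FJ.HyperEA
import Pool.Agent.H65FJ.Normal

/-!
# Ascending series below a normal subgroup
-/

set_option autoImplicit false

namespace Pool.Agent.V11193.FJ

open Pool.Agent.Y110.FJ
open Pool.Agent.Y462.SS (Closed)
open Pool.Agent.H65FJ (of_eq of_fg crit' cyc sup_cyc solv_sup lf_sup LocFin IntGP GoodPerm normal_gp t_col)

variable {C : ∀ (G : Type) [Group G], Prop}

/-- the normal subgroup `N` of `G` is good: `⟨N, g⟩` is in `C` for all `g` -/
def Good (C : ∀ (G : Type) [Group G], Prop) {G : Type} [Group G] (N : Subgroup G) : Prop :=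
  ∀ g : G, C ↥(N ⊔ Subgroup.zpowers g)

theorem Good.mem (hC : Closed C) {G : Type} [Group G] {N : Subgroup G} (h : Good C N) : C N := by
  have h1 := h 1
  rw [Subgroup.zpowers_one_eq_bot, sup_bot_eq] at h1
  exact h1

theorem good_of_ext (hC : ClosedE C) {G : Type} [Group G] (K L : Subgroup G) [K.Normal]
    (hK : Good C K) (hLK : Good C (L.map (QuotientGroup.mk' K))) : Good C L := by
  intro g
  let G' : Subgroup G := L ⊔ Subgroup.zpowers g
  let π := (QuotientGroup.mk' K).subgroupMap G'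
  have hπ : ∀ x : G', x ∈ π.ker → (x : G) ∈ K := by
    intro x hx
    have h1 : (QuotientGroup.mk' K) (x : G) = 1 := congrArg Subtype.val hx
    exact (QuotientGroup.eq_one_iff _).1 h1
  refine Pool.Agent.Y529.FJ.t_ext C hC G' π.ker ?_ ?_ ?_
  · refine hC.base.of_injective _ K ((G'.subtype.comp π.ker.subtype).codRestrict K
      (fun x => hπ x.1 x.2)) ?_ (hK.mem hC.base)
    intro x y hxy
    have h2 : ((x.1 : G') : G) = ((y.1 : G') : G) := congrArg (fun z : K => (z : G)) hxy
    exact Subtype.ext (Subtype.ext h2)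
  · refine hC.base.of_injective _ _ (QuotientGroup.kerLift π) (QuotientGroup.kerLift_injective π) ?_
    have h1 : L.map (QuotientGroup.mk' K) ⊔ Subgroup.zpowers (QuotientGroup.mk' K g) =
        G'.map (QuotientGroup.mk' K) := by
      rw [Subgroup.map_sup, MonoidHom.map_zpowers]
    exact of_eq h1 (hLK (QuotientGroup.mk' K g))
  · intro x _
    have hle : ∀ y : ↥(π.ker ⊔ Subgroup.zpowers x), ((y : G') : G) ∈
        K ⊔ Subgroup.zpowers (x : G) := by
      intro y
      have h1 : (π.ker ⊔ Subgroup.zpowers x).map G'.subtype ≤ K ⊔ Subgroup.zpowers (x : G) := by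
        rw [Subgroup.map_sup]
        refine sup_le_sup ?_ ?_
        · rintro _ ⟨z, hz, rfl⟩; exact hπ z hz
        · rw [MonoidHom.map_zpowers]; rfl
      exact h1 ⟨y, y.2, rfl⟩
    refine hC.base.of_injective _ _ ((G'.subtype.comp (Subgroup.subtype _)).codRestrict
      (K ⊔ Subgroup.zpowers (x : G)) hle) ?_ (hK (x : G))
    intro y z hyz
    have h2 : ((y.1 : G') : G) = ((z.1 : G') : G) :=
      congrArg (fun z : ↥(K ⊔ Subgroup.zpowers (x : G)) => (z : G)) hyz
    exact Subtype.ext (Subtype.ext h2)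

theorem good_bot (hC : Closed C) (G : Type) [Group G] : Good C (⊥ : Subgroup G) := by
  intro g
  rw [bot_sup_eq]
  exact cyc hC G g

theorem good_sSup (hC : Closed C) {G : Type} [Group G] (c : Set (Subgroup G))
    (hne : c.Nonempty) (hdir : DirectedOn (· ≤ ·) c) (hn : ∀ K ∈ c, K.Normal)
    (hg : ∀ K ∈ c, Good C K) : (sSup c).Normal ∧ Good C (sSup c) := by
  classical
  have hnor : (sSup c).Normal := by
    constructor
    intro n hn' g
    rw [Subgroup.mem_sSup_of_directedOn hne hdir] at hn' ⊢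
    obtain ⟨K, hK, hnK⟩ := hn'
    exact ⟨K, hK, (hn K hK).conj_mem n hnK g⟩
  refine ⟨hnor, fun g => ?_⟩
  have : Nonempty c := hne.to_subtype
  have hle : ∀ K : c, K.1 ⊔ Subgroup.zpowers g ≤ sSup c ⊔ Subgroup.zpowers g := fun K =>
    sup_le_sup_right (le_sSup K.2) _
  refine Pool.Agent.Y430.SS.of_directed hC _ c ?_
    (fun K => (K.1 ⊔ Subgroup.zpowers g).subgroupOf (sSup c ⊔ Subgroup.zpowers g)) ?_ ?_ ?_
  · rintro ⟨i, hi⟩ ⟨j, hj⟩
    obtain ⟨k, hk, h1, h2⟩ := hdir i hi j hj
    exact ⟨⟨k, hk⟩, h1, h2⟩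
  · intro K L hKL x hx
    exact sup_le_sup_right (show K.1 ≤ L.1 from hKL) _ hx
  · rintro ⟨x, hx⟩
    obtain ⟨n, hn', z, hz, rfl⟩ := Subgroup.mem_sup_of_normal_left.1 hx
    rw [Subgroup.mem_sSup_of_directedOn hne hdir] at hn'
    obtain ⟨K, hK, hnK⟩ := hn'
    exact ⟨⟨K, hK⟩, mul_mem (Subgroup.mem_sup_left hnK) (Subgroup.mem_sup_right hz)⟩
  · intro K
    exact hC.of_injective _ _ (Subgroup.subgroupOfEquivOfLe (hle K)).toMonoidHom
      (Subgroup.subgroupOfEquivOfLe (hle K)).injective (hg K.1 K.2 g)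

/-- Every normal subgroup `K` of `G` which is properly contained in `R` is contained in a larger normal
subgroup `L ≤ R` of `G` such that the factor `L / K` has the property `P`, as a normal subgroup of
`G / K`. -/
def Series {G : Type} [Group G] (R : Subgroup G) (P : ∀ (H : Type) [Group H], Subgroup H → Prop) :
    Prop :=
  ∀ (K : Subgroup G) [K.Normal], K < R → ∃ L : Subgroup G, L.Normal ∧ K < L ∧ L ≤ R ∧
    P (G ⧸ K) (L.map (QuotientGroup.mk' K))

/-- **Ascending series below a normal subgroup**: if all factors are good, then `R` is good. -/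
theorem good_series (hC : ClosedE C) {G : Type} [Group G] (R : Subgroup G) [R.Normal]
    (P : ∀ (H : Type) [Group H], Subgroup H → Prop)
    (hP : ∀ (H : Type) [Group H] (N : Subgroup H), N.Normal → P H N → Good C N)
    (h : Series R P) : Good C R := by
  classical
  let Z : Set (Subgroup G) := {K | K.Normal ∧ K ≤ R ∧ Good C K}
  have hbot : (⊥ : Subgroup G) ∈ Z := ⟨inferInstance, bot_le, good_bot hC.base G⟩
  have hchain : ∀ c ⊆ Z, IsChain (· ≤ ·) c → ∀ y ∈ c, ∃ ub ∈ Z, ∀ z ∈ c, z ≤ ub := by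
    intro c hc hch y hy
    obtain ⟨h1, h2⟩ := good_sSup hC.base c ⟨y, hy⟩ hch.directedOn (fun K hK => (hc hK).1)
      (fun K hK => (hc hK).2.2)
    exact ⟨sSup c, ⟨h1, sSup_le fun K hK => (hc hK).2.1, h2⟩, fun z hz => le_sSup hz⟩
  obtain ⟨K, _, hK⟩ := zorn_le_nonempty₀ Z hchain ⊥ hbot
  have hKn : K.Normal := hK.prop.1
  rcases hK.prop.2.1.eq_or_lt with hKR | hKR
  · rw [← hKR]
    exact hK.prop.2.2
  · exfalso
    obtain ⟨L, hL, hKL, hLR, hLK⟩ := h K hKR
    refine absurd (hK.le_of_ge (y := L) ⟨hL, hLR, ?_⟩ hKL.le) (not_le_of_gt hKL)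
    exact good_of_ext hC K L hK.prop.2.2
      (hP _ _ (Subgroup.Normal.map hL _ (QuotientGroup.mk'_surjective K)) hLK)

/-- a good normal subgroup with quotient in `C` -/
theorem mem_of_good (hC : ClosedE C) {G : Type} [Group G] (R : Subgroup G) [R.Normal]
    (h : Good C R) (hQ : C (G ⧸ R)) : C G :=
  Pool.Agent.Y529.FJ.t_ext C hC G R (h.mem hC.base) hQ (fun g _ => h g)

/-! ### good factors -/

theorem good_solv (hS : ∀ (G : Type) [Group G], Group.IsSolvable G → C G) {H : Type} [Group H]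
    (N : Subgroup H) [N.Normal] (hN : Group.IsSolvable N) : Good C N :=
  fun g => hS _ (solv_sup N g hN)

theorem good_lf (hC : ClosedE C) {H : Type} [Group H] (N : Subgroup H) [N.Normal] (hN : LocFin N) :
    Good C N :=
  fun g => lf_sup hC N g hN

/-- finite extensions by a cyclic group: enough to treat `⟨N, n g⟩` with no power in `N` -/
theorem good_of_coset (hC : ClosedE C) {H : Type} [Group H] (N : Subgroup H) [N.Normal] (hN : C N)
    (h : ∀ g : H, (∀ k : ℕ, 0 < k → g ^ k ∉ N) →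
      ∃ n ∈ N, C ↥(N ⊔ Subgroup.zpowers (n * g))) : Good C N := by
  intro g
  -- apply the extension criterion to `⟨N, g⟩`
  let G' : Subgroup H := N ⊔ Subgroup.zpowers g
  let N' : Subgroup G' := N.subgroupOf G'
  have hle : N ≤ G' := le_sup_left
  refine Pool.Agent.Y529.FJ.t_ext C hC G' N' ?_ ?_ ?_
  · exact hC.base.of_injective _ _ (Subgroup.subgroupOfEquivOfLe hle).toMonoidHom
      (Subgroup.subgroupOfEquivOfLe hle).injective hN
  · obtain ⟨c, hc⟩ := sup_cyc N g
    have h3 : Subgroup.zpowers c = ⊤ := by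
      rw [Subgroup.eq_top_iff']; exact hc
    exact hC.base.of_injective _ _
      (Subgroup.topEquiv (G := ↥(N ⊔ Subgroup.zpowers g) ⧸
        N.subgroupOf (N ⊔ Subgroup.zpowers g))).symm.toMonoidHom
      (Subgroup.topEquiv (G := ↥(N ⊔ Subgroup.zpowers g) ⧸
        N.subgroupOf (N ⊔ Subgroup.zpowers g))).symm.injective
      (of_eq h3 (cyc hC.base _ c))
  · intro x hx
    have hx' : ∀ k : ℕ, 0 < k → (x : H) ^ k ∉ N := fun k hk hk' => hx k hk hk'
    obtain ⟨n, hn, h1⟩ := h (x : H) hx'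
    have h2 : N ⊔ Subgroup.zpowers (n * (x : H)) = N ⊔ Subgroup.zpowers (x : H) := by
      apply le_antisymm
      · refine sup_le le_sup_left ?_
        rw [Subgroup.zpowers_le]
        exact mul_mem (Subgroup.mem_sup_left hn)
          (Subgroup.mem_sup_right (Subgroup.mem_zpowers _))
      · refine sup_le le_sup_left ?_
        rw [Subgroup.zpowers_le]
        have h2 : (x : H) = n⁻¹ * (n * (x : H)) := by group
        rw [h2]
        exact mul_mem (Subgroup.mem_sup_left (inv_mem hn))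
          (Subgroup.mem_sup_right (by
            have h3 : n * (n⁻¹ * (n * (x : H))) = n * (x : H) := by group
            rw [h3]; exact Subgroup.mem_zpowers _))
    have h4 := of_eq h2 h1
    have hle' : ∀ y : ↥(N' ⊔ Subgroup.zpowers x), ((y : G') : H) ∈
        N ⊔ Subgroup.zpowers (x : H) := by
      intro y
      have h1 : (N' ⊔ Subgroup.zpowers x).map G'.subtype ≤ N ⊔ Subgroup.zpowers (x : H) := by
        rw [Subgroup.map_sup]
        refine sup_le_sup ?_ ?_
        · rintro _ ⟨z, hz, rfl⟩; exact hz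
        · rw [MonoidHom.map_zpowers]; rfl
      exact h1 ⟨y, y.2, rfl⟩
    refine hC.base.of_injective _ _ ((G'.subtype.comp (Subgroup.subtype _)).codRestrict
      (N ⊔ Subgroup.zpowers (x : H)) hle') ?_ h4
    intro y z hyz
    have h2 : ((y.1 : G') : H) = ((z.1 : G') : H) :=
      congrArg (fun z : ↥(N ⊔ Subgroup.zpowers (x : H)) => (z : H)) hyz
    exact Subtype.ext (Subtype.ext h2)

end Pool.Agent.V11193.FJ
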